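import Mathlib

/-!
# Secret sum computation in networks with Gaussian sources: condition (C) is sufficient

Edges outside the secrecy closure carry `X_s` for all sources `s` which reach their tail outside of
the secrecy closure; every edge carries the differences `X_a - X_b` for all pairs of sources which
reach outside of the secrecy closure a common node above its tail. The differences are independent of
`∑ X_s`. Along an undirected path from `s` to the destination outside of the secrecy closure, the tail
of every edge is reached by a source, so that `X_s` is a sum of differences known to the destination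
and of one value `X_σ` known to the destination.
-/

set_option autoImplicit false

namespace Pool.Agent.Results.MP_121ed1_lc.ConditionCSuffices

open MeasureTheory ProbabilityTheory Relation

/-- A network: a finite directed acyclic graph which is weakly connected and has exactly one vertex
`d` of out-degree `0`. -/
structure Network (V : Type) [Fintype V] where
  /-- the edge relation -/
  E : V → V → Prop
  acyclic : ∀ v, ¬ TransGen E v v
  connected : (SimpleGraph.fromRel E).Connected
  /-- the destination -/
  d : V
  sink : ∀ w, ¬ E d w
  sink_unique : ∀ v, (∀ w, ¬ E v w) → v = d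

namespace Network

variable {V : Type} [Fintype V] (N : Network V)

/-- The sources: the vertices of in-degree `0`. -/
def Source : Type := {s : V // ∀ u, ¬ N.E u s}

/-- The in-neighbours of `v` (equivalently, the incoming edges of `v`). -/
def In (v : V) : Type := {u : V // N.E u v}

noncomputable instance : Fintype N.Source := by
  classical
  unfold Source
  infer_instance

noncomputable instance (v : V) : Fintype (N.In v) := by
  classical
  unfold In
  infer_instance

noncomputable instance : DecidableEq N.Source := Classical.decEq _

lemma wf : WellFounded N.E := by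
  have h : Std.Irrefl (TransGen N.E) := ⟨N.acyclic⟩
  have h2 : WellFounded (TransGen N.E) := Finite.wellFounded_of_trans_of_irrefl _
  exact Subrelation.wf (fun h => TransGen.single h) h2

lemma wf_swap : WellFounded (fun a b => N.E b a) := by
  have h1 : IsTrans V (fun a b => TransGen N.E b a) := ⟨fun a b c hab hbc => hbc.trans hab⟩
  have h : Std.Irrefl (fun a b => TransGen N.E b a) := ⟨N.acyclic⟩
  have h2 : WellFounded (fun a b => TransGen N.E b a) := Finite.wellFounded_of_trans_of_irrefl _
  exact Subrelation.wf (fun h => TransGen.single h) h2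

/-- `1{v ∈ S} X_v`: the own value of `v`, if `v` is a source, and `0` otherwise. -/
noncomputable def own (x : N.Source → ℝ) (v : V) : ℝ := by
  classical
  exact if h : ∀ u, ¬ N.E u v then x ⟨v, h⟩ else 0

/-- The secrecy closure of a set `W` of edges: `W` and all edges `(u, v)` such that no source has a
directed path to `u` which uses no edge of `W`. -/
def scl (W : Set (V × V)) : Set (V × V) :=
  W ∪ {e | N.E e.1 e.2 ∧ ¬ ∃ s : N.Source, ReflTransGen (fun a b => N.E a b ∧ (a, b) ∉ W) s.1 e.1}

/-- Condition (C): in the graph `(V, E \ scl(W))`, regarded as undirected, every source lies in the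
connected component of the destination. -/
def ConditionC (W : Set (V × V)) : Prop :=
  ∀ s : N.Source,
    (SimpleGraph.fromRel (fun u v => N.E u v ∧ (u, v) ∉ N.scl W)).Reachable s.1 N.d

/-- A coding scheme with signals in `α`: the function `f v w` computes the signal on the edge
`(v, w)` from the signals on the incoming edges of `v` and from `1{v ∈ S} X_v`; the function `fd`
computes the output from the signals on the incoming edges of the destination. -/
structure Scheme (α : Type) [MeasurableSpace α] where
  /-- the coding functions of the edges -/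
  f : ∀ v : V, V → (N.In v → α) × ℝ → α
  /-- the decoding function of the destination -/
  fd : (N.In N.d → α) → ℝ
  measurable_f : ∀ v w, Measurable (f v w)
  measurable_fd : Measurable fd

namespace Scheme

variable {N} {α : Type} [MeasurableSpace α] (C : N.Scheme α)

/-- The signals on the incoming edges of `v`, computed along the network. -/
noncomputable def inc (x : N.Source → ℝ) : ∀ v : V, N.In v → α :=
  N.wf.fix (fun v rec u => C.f u.1 v (rec u.1 u.2, N.own x u.1))

/-- The signal on the edge `(u, v)`, as a function of the values of the sources. -/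
noncomputable def signal (u v : V) (x : N.Source → ℝ) : α := C.f u v (C.inc x u, N.own x u)

/-- The output of the destination. -/
noncomputable def output (x : N.Source → ℝ) : ℝ := C.fd (C.inc x N.d)

lemma inc_eq (x : N.Source → ℝ) (v : V) (u : N.In v) : C.inc x v u = C.signal u.1 v x := by
  unfold inc signal
  rw [N.wf.fix_eq]
  rfl

/-- The scheme is secret for the set `W` of wiretapped edges: the output is the sum of the values of
the sources, and if these values are independent standard Gaussian random variables, then the family
of the signals on the edges in `W` is independent of their sum. -/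
def IsSecret (W : Set (V × V)) : Prop :=
  (∀ x, C.output x = ∑ s, x s) ∧
  ∀ (Ω : Type) [MeasurableSpace Ω] (P : Measure Ω) [IsProbabilityMeasure P]
    (X : N.Source → Ω → ℝ), (∀ s, HasLaw (X s) (gaussianReal 0 1) P) → iIndepFun X P →
    IndepFun (fun ω (e : W) => C.signal e.1.1 e.1.2 (fun s => X s ω)) (fun ω => ∑ s, X s ω) P

/-- A scheme whose signals are vectors is linear if all its functions are linear. -/
def IsLinear {ι : Type} (C : N.Scheme (ι → ℝ)) : Prop :=
  (∀ v w, IsLinearMap ℝ (C.f v w)) ∧ IsLinearMap ℝ C.fd

end Scheme

/-! ### The construction -/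

section

variable (W : Set (V × V))

/-- edges outside the secrecy closure -/
def r (u v : V) : Prop := N.E u v ∧ (u, v) ∉ N.scl W

/-- `a` and `b` reach a common node above `v` outside of the secrecy closure -/
def D (a b : N.Source) (v : V) : Prop :=
  ∃ u, ReflTransGen (N.r W) a.1 u ∧ ReflTransGen (N.r W) b.1 u ∧ ReflTransGen N.E u v

lemma reach_r (s : N.Source) (t : V)
    (h : ReflTransGen (fun a b => N.E a b ∧ (a, b) ∉ W) s.1 t) : ReflTransGen (N.r W) s.1 t := by
  induction h with
  | refl => exact ReflTransGen.refl
  | @tail b c hab hbc ih =>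
    refine ih.tail ⟨hbc.1, ?_⟩
    rintro (h | ⟨_, h⟩)
    · exact hbc.2 h
    · exact h ⟨s, hab⟩

lemma tail_reached {u v : V} (h : N.r W u v) : ∃ s : N.Source, ReflTransGen (N.r W) s.1 u := by
  by_contra hcon
  apply h.2
  refine Or.inr ⟨h.1, ?_⟩
  rintro ⟨s, hs⟩
  exact hcon ⟨s, N.reach_r W s u hs⟩

lemma reaches_d (v : V) : ReflTransGen N.E v N.d := by
  induction v using N.wf_swap.induction with
  | _ v ih =>
    by_cases h : ∀ w, ¬ N.E v w
    · rw [N.sink_unique v h]
    · push Not at h
      obtain ⟨w, hw⟩ := h
      exact (ih w hw).head hw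

open Classical in
/-- the value of the source `s` at the node `v`, if `s` reaches `v` outside of the closure -/
noncomputable def val (s : N.Source) (v : V) (p : (N.In v → (N.Source ⊕ N.Source × N.Source → ℝ)) × ℝ) :
    ℝ :=
  if s.1 = v then p.2 else
    if h : ∃ w : N.In v, ReflTransGen (N.r W) s.1 w.1 ∧ N.r W w.1 v then p.1 h.choose (Sum.inl s)
    else 0

open Classical in
/-- the coding functions -/
noncomputable def code (u v : V) (p : (N.In u → (N.Source ⊕ N.Source × N.Source → ℝ)) × ℝ) :
    N.Source ⊕ N.Source × N.Source → ℝ
  | Sum.inl s => if N.r W u v ∧ ReflTransGen (N.r W) s.1 u then N.val W s u p else 0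
  | Sum.inr (a, b) =>
      if h : ∃ w : N.In u, N.D W a b w.1 then p.1 h.choose (Sum.inr (a, b)) else
        if ReflTransGen (N.r W) a.1 u ∧ ReflTransGen (N.r W) b.1 u then
          N.val W a u p - N.val W b u p else 0

open Classical in
/-- the intended signal on the edge `(u, v)` -/
noncomputable def sig (u v : V) (x : N.Source → ℝ) : N.Source ⊕ N.Source × N.Source → ℝ
  | Sum.inl s => if N.r W u v ∧ ReflTransGen (N.r W) s.1 u then x s else 0
  | Sum.inr (a, b) => if N.D W a b u then x a - x b else 0

lemma own_source (x : N.Source → ℝ) (s : N.Source) : N.own x s.1 = x s := by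
  classical
  unfold own
  rw [dif_pos s.2]
  rfl

/-- the value is right if the incoming signals are right -/
lemma val_sig (x : N.Source → ℝ) (s : N.Source) (v : V) (h : ReflTransGen (N.r W) s.1 v) :
    N.val W s v (fun w => N.sig W w.1 v x, N.own x v) = x s := by
  classical
  unfold val
  by_cases h1 : s.1 = v
  · rw [if_pos h1]
    subst h1
    exact N.own_source x s
  · rw [if_neg h1]
    have h2 : ∃ w : N.In v, ReflTransGen (N.r W) s.1 w.1 ∧ N.r W w.1 v := by
      rcases ReflTransGen.cases_tail h with h3 | ⟨w, hw1, hw2⟩
      · exact absurd h3.symm h1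
      · exact ⟨⟨w, hw2.1⟩, hw1, hw2⟩
    rw [dif_pos h2]
    simp only [sig]
    rw [if_pos ⟨h2.choose_spec.2, h2.choose_spec.1⟩]

lemma D_cases {a b : N.Source} {v : V} (h : N.D W a b v) :
    (∃ w : N.In v, N.D W a b w.1) ∨
      (ReflTransGen (N.r W) a.1 v ∧ ReflTransGen (N.r W) b.1 v) := by
  obtain ⟨u, h1, h2, h3⟩ := h
  rcases ReflTransGen.cases_tail h3 with h4 | ⟨w, hw1, hw2⟩
  · subst h4
    exact Or.inr ⟨h1, h2⟩
  · exact Or.inl ⟨⟨w, hw2⟩, u, h1, h2, hw1⟩

lemma D_of_in {a b : N.Source} {v : V} (w : N.In v) (h : N.D W a b w.1) : N.D W a b v := by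
  obtain ⟨u, h1, h2, h3⟩ := h
  exact ⟨u, h1, h2, h3.tail w.2⟩

lemma code_sig (x : N.Source → ℝ) (u v : V) :
    N.code W u v (fun w => N.sig W w.1 u x, N.own x u) = N.sig W u v x := by
  classical
  funext i
  rcases i with s | ⟨a, b⟩
  · simp only [code, sig]
    by_cases h : N.r W u v ∧ ReflTransGen (N.r W) s.1 u
    · rw [if_pos h, if_pos h, N.val_sig W x s u h.2]
    · rw [if_neg h, if_neg h]
  · simp only [code]
    show _ = N.sig W u v x (Sum.inr (a, b))
    simp only [sig]
    by_cases h : N.D W a b u
    · rw [if_pos h]
      by_cases h1 : ∃ w : N.In u, N.D W a b w.1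
      · rw [dif_pos h1, if_pos h1.choose_spec]
      · rw [dif_neg h1]
        rcases N.D_cases W h with h2 | h2
        · exact absurd h2 h1
        · rw [if_pos h2, N.val_sig W x a u h2.1, N.val_sig W x b u h2.2]
    · rw [if_neg h]
      have h1 : ¬ ∃ w : N.In u, N.D W a b w.1 := fun ⟨w, hw⟩ => h (N.D_of_in W w hw)
      have h2 : ¬ (ReflTransGen (N.r W) a.1 u ∧ ReflTransGen (N.r W) b.1 u) :=
        fun h2 => h ⟨u, h2.1, h2.2, ReflTransGen.refl⟩
      rw [dif_neg h1, if_neg h2]

lemma val_linear (s : N.Source) (v : V) : IsLinearMap ℝ (N.val W s v) := by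
  classical
  unfold val
  constructor
  · intro p q
    split_ifs <;> simp
  · intro c p
    split_ifs <;> simp

lemma code_linear (u v : V) : IsLinearMap ℝ (N.code W u v) := by
  classical
  constructor
  · intro p q
    funext i
    rcases i with s | ⟨a, b⟩
    · simp only [code, Pi.add_apply]
      split_ifs
      · exact (N.val_linear W s u).map_add p q
      · simp
    · simp only [code, Pi.add_apply]
      split_ifs
      · simp
      · rw [(N.val_linear W a u).map_add, (N.val_linear W b u).map_add]
        ring
      · simp
  · intro c p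
    funext i
    rcases i with s | ⟨a, b⟩
    · simp only [code, Pi.smul_apply, smul_eq_mul]
      split_ifs
      · exact (N.val_linear W s u).map_smul c p
      · simp
    · simp only [code, Pi.smul_apply, smul_eq_mul]
      split_ifs
      · simp
      · rw [(N.val_linear W a u).map_smul, (N.val_linear W b u).map_smul]
        simp only [smul_eq_mul]
        ring
      · simp

/-- the value of `s` is a linear function of the signals received by the destination -/
def Dec (s : N.Source) : Prop :=
  ∃ L : (N.In N.d → (N.Source ⊕ N.Source × N.Source → ℝ)) →ₗ[ℝ] ℝ,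
    ∀ x : N.Source → ℝ, L (fun w => N.sig W w.1 N.d x) = x s

lemma d_not_source [Nontrivial V] : ∃ u, N.E u N.d := by
  obtain ⟨v, hv⟩ := exists_ne N.d
  obtain ⟨p⟩ := N.connected.preconnected N.d v
  cases p with
  | nil => exact absurd rfl hv
  | cons h _ =>
    rw [SimpleGraph.fromRel_adj] at h
    rcases h.2 with h | h
    · exact absurd h (N.sink _)
    · exact ⟨_, h⟩

/-- a coordinate of the signal on an edge to the destination -/
def pr (w : N.In N.d) (i : N.Source ⊕ N.Source × N.Source) :
    (N.In N.d → (N.Source ⊕ N.Source × N.Source → ℝ)) →ₗ[ℝ] ℝ where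
  toFun y := y w i
  map_add' _ _ := rfl
  map_smul' _ _ := rfl

lemma dec_base [Nontrivial V] (s : N.Source) (h : ReflTransGen (N.r W) s.1 N.d) :
    N.Dec W s := by
  classical
  rcases ReflTransGen.cases_tail h with h1 | ⟨w, hw1, hw2⟩
  · obtain ⟨u, hu⟩ := N.d_not_source
    rw [h1] at hu
    exact absurd hu (s.2 u)
  · refine ⟨N.pr ⟨w, hw2.1⟩ (Sum.inl s), fun x => ?_⟩
    show N.sig W w N.d x (Sum.inl s) = x s
    simp only [sig]
    rw [if_pos ⟨hw2, hw1⟩]

lemma dec_diff [Nontrivial V] (a b : N.Source) (h : N.D W a b N.d) (hb : N.Dec W b) :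
    N.Dec W a := by
  classical
  rcases N.D_cases W h with ⟨w, hw⟩ | ⟨h1, _⟩
  · obtain ⟨L, hL⟩ := hb
    refine ⟨N.pr w (Sum.inr (a, b)) + L, fun x => ?_⟩
    rw [LinearMap.add_apply, hL]
    show N.sig W w.1 N.d x (Sum.inr (a, b)) + x b = x a
    simp only [sig]
    rw [if_pos hw]
    ring
  · exact N.dec_base W a h1

lemma dec_all [Nontrivial V] (hC : N.ConditionC W) (s : N.Source) : N.Dec W s := by
  have key : ∀ u v : V,
      (SimpleGraph.fromRel (fun u v => N.E u v ∧ (u, v) ∉ N.scl W)).Walk u v →
      v = N.d → ∀ s : N.Source, ReflTransGen (N.r W) s.1 u → N.Dec W s := by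
    intro u v p
    induction p with
    | nil =>
      rintro rfl s hs
      exact N.dec_base W s hs
    | @cons u v w h p ih =>
      intro hw s hs
      rw [SimpleGraph.fromRel_adj] at h
      rcases h.2 with h1 | h1
      · obtain ⟨σ, hσ⟩ := N.tail_reached W h1
        have hdec := ih hw σ (hσ.tail h1)
        exact N.dec_diff W s σ ⟨u, hs, hσ, N.reaches_d u⟩ hdec
      · obtain ⟨σ, hσ⟩ := N.tail_reached W h1
        have hdec := ih hw σ hσ
        exact N.dec_diff W s σ ⟨u, hs, hσ.tail h1, N.reaches_d u⟩ hdec
  obtain ⟨p⟩ := hC s
  exact key s.1 N.d p rfl s ReflTransGen.refl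

end

/-! ### Independence -/

lemma indep_diff {S : Type} [Fintype S] [DecidableEq S] {Ω : Type} [MeasurableSpace Ω] (P : Measure Ω)
    [IsProbabilityMeasure P] (X : S → Ω → ℝ) (hX : ∀ s, HasLaw (X s) (gaussianReal 0 1) P)
    (hI : iIndepFun X P) :
    IndepFun (fun ω (p : S × S) => X p.1 ω - X p.2 ω) (fun ω => ∑ s, X s ω) P := by
  have hg : ∀ s, HasGaussianLaw (X s) P := fun s => (hX s).hasGaussianLaw
  have hj : HasGaussianLaw (fun ω s => X s ω) P := hI.hasGaussianLaw hg
  have hL2 : ∀ s, MemLp (X s) 2 P := fun s => (hg s).memLp_two
  have hvar : ∀ s, Var[X s; P] = 1 := by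
    intro s
    rw [(hX s).variance_eq, variance_id_gaussianReal]
    simp
  have hcov : ∀ a b : S, cov[X a, X b; P] = if a = b then 1 else 0 := by
    intro a b
    by_cases h : a = b
    · subst h
      rw [if_pos rfl, covariance_self (hg a).aemeasurable, hvar]
    · rw [if_neg h]
      exact (hI.indepFun h).covariance_eq_zero (hL2 a) (hL2 b)
  have h2 : HasGaussianLaw (fun ω => ((fun p : S × S => X p.1 ω - X p.2 ω),
      (fun _ : Unit => ∑ s, X s ω))) P := by
    let L : (S → ℝ) →ₗ[ℝ] ((S × S → ℝ) × (Unit → ℝ)) :=
      { toFun := fun x => (fun p => x p.1 - x p.2, fun _ => ∑ s, x s)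
        map_add' := by
          intro x y
          refine Prod.ext ?_ ?_
          · funext p
            simp only [Pi.add_apply, Prod.fst_add]
            ring
          · funext p
            simp only [Pi.add_apply, Prod.snd_add]
            rw [Finset.sum_add_distrib]
        map_smul' := by
          intro c x
          refine Prod.ext ?_ ?_
          · funext p
            simp only [Pi.smul_apply, smul_eq_mul, Prod.smul_fst, RingHom.id_apply]
            ring
          · funext p
            simp only [Pi.smul_apply, smul_eq_mul, Prod.smul_snd, RingHom.id_apply]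
            rw [Finset.mul_sum] }
    exact hj.map_fun (LinearMap.toContinuousLinearMap L)
  have h5 := HasGaussianLaw.indepFun_of_covariance_eval (X := fun (p : S × S) ω => X p.1 ω - X p.2 ω)
    (Y := fun (_ : Unit) ω => ∑ s, X s ω) h2 (by
      rintro ⟨a, b⟩ -
      simp only
      rw [covariance_fun_sub_left (hL2 a) (hL2 b) (memLp_finsetSum _ (fun s _ => hL2 s)),
        covariance_fun_sum_right hL2 (hL2 a), covariance_fun_sum_right hL2 (hL2 b)]
      simp [hcov])
  exact h5.comp measurable_id (measurable_pi_apply ())

/-- The scheme. -/
noncomputable def scheme [Nontrivial V] (W : Set (V × V)) (hC : N.ConditionC W) :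
    N.Scheme (N.Source ⊕ N.Source × N.Source → ℝ) where
  f := N.code W
  fd := fun y => ∑ s, (N.dec_all W hC s).choose y
  measurable_f := by
    intro v w
    have : N.code W v w = ((N.code_linear W v w).mk' _ : _ →ₗ[ℝ] _) := rfl
    rw [this]
    exact (LinearMap.continuous_of_finiteDimensional _).measurable
  measurable_fd := by
    apply Finset.measurable_fun_sum
    intro s _
    exact (LinearMap.continuous_of_finiteDimensional _).measurable

lemma scheme_inc [Nontrivial V] (W : Set (V × V)) (hC : N.ConditionC W) (x : N.Source → ℝ) (v : V) :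
    (N.scheme W hC).inc x v = fun w => N.sig W w.1 v x := by
  induction v using N.wf.induction with
  | _ v ih =>
    funext w
    rw [Scheme.inc_eq]
    unfold Scheme.signal
    rw [ih w.1 w.2]
    exact N.code_sig W x w.1 v

lemma scheme_signal [Nontrivial V] (W : Set (V × V)) (hC : N.ConditionC W) (x : N.Source → ℝ)
    (u v : V) : (N.scheme W hC).signal u v x = N.sig W u v x := by
  unfold Scheme.signal
  rw [scheme_inc]
  exact N.code_sig W x u v

lemma scheme_output [Nontrivial V] (W : Set (V × V)) (hC : N.ConditionC W) (x : N.Source → ℝ) :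
    (N.scheme W hC).output x = ∑ s, x s := by
  unfold Scheme.output
  rw [scheme_inc]
  show ∑ s, (N.dec_all W hC s).choose (fun w => N.sig W w.1 N.d x) = _
  exact Finset.sum_congr rfl (fun s _ => (N.dec_all W hC s).choose_spec x)

open Classical in
/-- the signal on a wiretapped edge as a function of the differences -/
noncomputable def wsig (W : Set (V × V)) (u : V) (δ : N.Source × N.Source → ℝ) :
    N.Source ⊕ N.Source × N.Source → ℝ
  | Sum.inl _ => 0
  | Sum.inr (a, b) => if N.D W a b u then δ (a, b) else 0

lemma sig_wire (W : Set (V × V)) (u v : V) (h : (u, v) ∈ W) (x : N.Source → ℝ) :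
    N.sig W u v x = N.wsig W u (fun p => x p.1 - x p.2) := by
  classical
  funext i
  rcases i with s | ⟨a, b⟩
  · simp only [sig, wsig]
    apply if_neg
    rintro ⟨h1, -⟩
    exact h1.2 (Or.inl h)
  · simp only [sig, wsig]

lemma wsig_measurable (W : Set (V × V)) (u : V) : Measurable (N.wsig W u) := by
  classical
  rw [measurable_pi_iff]
  rintro (s | ⟨a, b⟩)
  · exact measurable_const
  · simp only [wsig]
    split_ifs
    · exact measurable_pi_apply _
    · exact measurable_const

lemma scheme_secret [Nontrivial V] (W : Set (V × V)) (hC : N.ConditionC W) :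
    (N.scheme W hC).IsSecret W := by
  refine ⟨N.scheme_output W hC, ?_⟩
  intro Ω _ P _ X hX hI
  have h1 := indep_diff P X hX hI
  have h2 : (fun ω (e : W) => (N.scheme W hC).signal e.1.1 e.1.2 (fun s => X s ω)) =
      (fun δ : N.Source × N.Source → ℝ => fun e : W => N.wsig W e.1.1 δ) ∘
      (fun ω (p : N.Source × N.Source) => X p.1 ω - X p.2 ω) := by
    funext ω e
    rw [scheme_signal, sig_wire N W e.1.1 e.1.2 e.2]
    rfl
  rw [h2]
  refine h1.comp ?_ measurable_id
  rw [measurable_pi_iff]
  intro e
  exact N.wsig_measurable W e.1.1

/-! ### Scalar signals -/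

namespace Scheme

variable {N} {α β : Type} [MeasurableSpace α] [MeasurableSpace β]

/-- Transport of a scheme along a measurable bijection of the signals. -/
noncomputable def transport (C : N.Scheme α) (e : α ≃ᵐ β) : N.Scheme β where
  f := fun v w p => e (C.f v w (fun u => e.symm (p.1 u), p.2))
  fd := fun y => C.fd (fun u => e.symm (y u))
  measurable_f := by
    intro v w
    refine e.measurable.comp ((C.measurable_f v w).comp ?_)
    refine Measurable.prodMk ?_ measurable_snd
    rw [measurable_pi_iff]
    intro u
    exact e.symm.measurable.comp ((measurable_pi_apply u).comp measurable_fst)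
  measurable_fd := by
    refine C.measurable_fd.comp ?_
    rw [measurable_pi_iff]
    intro u
    exact e.symm.measurable.comp (measurable_pi_apply u)

lemma transport_inc (C : N.Scheme α) (e : α ≃ᵐ β) (x : N.Source → ℝ) (v : V) (u : N.In v) :
    (C.transport e).inc x v u = e (C.inc x v u) := by
  induction v using N.wf.induction with
  | _ v ih =>
    rw [inc_eq, inc_eq]
    unfold signal
    show e (C.f u.1 v (fun w => e.symm ((C.transport e).inc x u.1 w), N.own x u.1)) = _
    have : (fun w => e.symm ((C.transport e).inc x u.1 w)) = C.inc x u.1 := by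
      funext w
      rw [ih u.1 u.2 w, e.symm_apply_apply]
    rw [this]

lemma transport_signal (C : N.Scheme α) (e : α ≃ᵐ β) (x : N.Source → ℝ) (u v : V) :
    (C.transport e).signal u v x = e (C.signal u v x) := by
  unfold signal
  show e (C.f u v (fun w => e.symm ((C.transport e).inc x u w), N.own x u)) = _
  have : (fun w => e.symm ((C.transport e).inc x u w)) = C.inc x u := by
    funext w
    rw [transport_inc, e.symm_apply_apply]
  rw [this]

lemma transport_secret (C : N.Scheme α) (e : α ≃ᵐ β) (W : Set (V × V)) (h : C.IsSecret W) :
    (C.transport e).IsSecret W := by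
  refine ⟨fun x => ?_, ?_⟩
  · rw [← h.1 x]
    unfold output
    show C.fd (fun w => e.symm ((C.transport e).inc x N.d w)) = _
    congr 1
    funext w
    rw [transport_inc, e.symm_apply_apply]
  · intro Ω _ P _ X hX hI
    have h1 := h.2 Ω P X hX hI
    have h2 : (fun ω (i : W) => (C.transport e).signal i.1.1 i.1.2 (fun s => X s ω)) =
        (fun y : W → α => fun i => e (y i)) ∘
        (fun ω (i : W) => C.signal i.1.1 i.1.2 (fun s => X s ω)) := by
      funext ω i
      exact transport_signal C e _ _ _
    rw [h2]
    refine h1.comp ?_ measurable_id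
    rw [measurable_pi_iff]
    intro i
    exact e.measurable.comp (measurable_pi_apply i)

end Scheme

end Network

open Network

/-- **Condition (C) is sufficient.** Let `N` be a network with at least two vertices, and let `W` be
a set of edges which satisfies condition (C). Then there is a secret coding scheme with wiretapped
edges `W` which is linear and whose signals are real vectors of some dimension `k`; and there is a
(measurable) secret coding scheme whose signals are single real numbers. -/
theorem result (V : Type) [Fintype V] [Nontrivial V] (N : Network V) (W : Set (V × V))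
    (hW : ∀ e ∈ W, N.E e.1 e.2) (hC : N.ConditionC W) :
    (∃ (k : ℕ) (C : N.Scheme (Fin k → ℝ)), C.IsLinear ∧ C.IsSecret W) ∧
      ∃ C : N.Scheme ℝ, C.IsSecret W := by
  classical
  have _ := hW
  obtain ⟨k, hk⟩ : ∃ k, k = Fintype.card (N.Source ⊕ N.Source × N.Source) := ⟨_, rfl⟩
  let i : (N.Source ⊕ N.Source × N.Source) ≃ Fin k := hk ▸ Fintype.equivFin _
  let e : (N.Source ⊕ N.Source × N.Source → ℝ) ≃ᵐ (Fin k → ℝ) :=
    { toFun := fun y j => y (i.symm j)
      invFun := fun z a => z (i a)
      left_inv := fun y => by funext a; simp
      right_inv := fun z => by funext j; simp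
      measurable_toFun := by
        rw [measurable_pi_iff]
        intro j
        exact measurable_pi_apply _
      measurable_invFun := by
        rw [measurable_pi_iff]
        intro j
        exact measurable_pi_apply _ }
  refine ⟨⟨k, (N.scheme W hC).transport e, ⟨?_, ?_⟩, ?_⟩, ?_⟩
  · intro v w
    have h := N.code_linear W v w
    constructor
    · intro p q
      funext j
      exact congrFun (h.map_add (fun u a => p.1 u (i a), p.2) (fun u a => q.1 u (i a), q.2))
        (i.symm j)
    · intro c p
      funext j
      exact congrFun (h.map_smul c (fun u a => p.1 u (i a), p.2)) (i.symm j)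
  · constructor
    · intro y z
      show ∑ s, (N.dec_all W hC s).choose ((fun u a => y u (i a)) + (fun u a => z u (i a))) = _
      simp only [map_add]
      rw [Finset.sum_add_distrib]
      rfl
    · intro c y
      show ∑ s, (N.dec_all W hC s).choose (c • (fun u a => y u (i a))) = _
      simp only [map_smul]
      rw [← Finset.smul_sum]
      rfl
  · exact Scheme.transport_secret _ e W (N.scheme_secret W hC)
  · obtain ⟨s, -, hs⟩ := N.wf.has_min Set.univ ⟨N.d, trivial⟩
    have s₀ : N.Source := ⟨s, fun u hu => hs u trivial hu⟩
    have h1 : ¬ Countable (N.Source ⊕ N.Source × N.Source → ℝ) := by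
      intro h
      have h2 : Function.Injective (fun (t : ℝ) (_ : N.Source ⊕ N.Source × N.Source) => t) := by
        intro t t' h3
        exact congrFun h3 (Sum.inl s₀)
      exact not_countable (α := ℝ) h2.countable
    exact ⟨(N.scheme W hC).transport (PolishSpace.measurableEquivOfNotCountable h1 not_countable),
      Scheme.transport_secret _ _ W (N.scheme_secret W hC)⟩

end Pool.Agent.Results.MP_121ed1_lc.ConditionCSuffices
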